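import Mathlib

namespace Pool.Agent.Results.MP_ae8880_nt.Counter

/-- `n = a+b+c+d` with positive `a, b, c, d` and `abcd = p^3 - p` for a prime `p` -/
def Representable (n : ℕ) : Prop :=
  ∃ a b c d p : ℕ, 0 < a ∧ 0 < b ∧ 0 < c ∧ 0 < d ∧ p.Prime ∧ n = a + b + c + d ∧
    ((a * b * c * d : ℕ) : ℤ) = (p : ℤ) ^ 3 - p

theorem chk : ∀ a ∈ List.range 31, ∀ b ∈ List.range 31, ∀ c ∈ List.range 31,
    a * b * c * (33 - a - b - c) ≤ 4700 ∧
      a * b * c * (33 - a - b - c) ∉ [6, 24, 120, 336, 1320, 2184] := by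
  decide +kernel

theorem result : ¬ ∀ n : ℕ, 8 < n → Representable n := by
  intro H
  obtain ⟨a, b, c, d, p, ha, hb, hc, hd, hp, hs, hm⟩ := H 33 (by norm_num)
  have h := chk a (List.mem_range.2 (by omega)) b (List.mem_range.2 (by omega)) c
    (List.mem_range.2 (by omega))
  have e : 33 - a - b - c = d := by omega
  rw [e] at h
  obtain ⟨h1, h2⟩ := h
  generalize a * b * c * d = m at h1 h2 hm
  have hlt : p < 17 := by
    by_contra hge
    have h3 : (17 : ℤ) ≤ p := by exact_mod_cast not_lt.1 hge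
    have h4 : (m : ℤ) ≤ 4700 := by exact_mod_cast h1
    nlinarith [mul_nonneg (sub_nonneg.2 h3) (sub_nonneg.2 h3), sq_nonneg (p : ℤ)]
  simp only [List.mem_cons, List.not_mem_nil, or_false, not_or] at h2
  interval_cases p <;> first | (norm_num at hp; done) | (norm_num at hm; omega)

end Pool.Agent.Results.MP_ae8880_nt.Counter
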